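import Pool.Agent.J4H59.PL.Stm3

set_option autoImplicit false

/-!
# Project CY2 of helper59: a normalised subgroup of finite index (helper82)
-/

open scoped Classical

namespace Pool.Agent.J4H82.CY

open Pool.Agent.J4H59.PG Pool.Agent.J4H59.PL

theorem fin_hom (A : Type) [Group A] (h : Group.FG A) (P : Type) [Group P] [Finite P] : Finite (A →* P) := by
  obtain ⟨S, hS⟩ := Group.fg_def.1 h
  refine Finite.of_injective (fun (φ : A →* P) (s : S) => φ s.1) fun φ ψ hφ => ?_
  refine MonoidHom.eq_of_eqOn_dense hS fun s hs => ?_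
  exact congrFun hφ ⟨s, hs⟩

/-- the subgroups of index at most `C` contain a common subgroup of finite index -/
theorem common (A : Type) [Group A] (h : Group.FG A) (C : ℕ) : ∃ P : Subgroup A, P.FiniteIndex ∧
    ∀ H : Subgroup A, H.index ≠ 0 → H.index ≤ C → P ≤ H := by
  haveI := fin_hom A h (Equiv.Perm (Fin C))
  refine ⟨⨅ φ : A →* Equiv.Perm (Fin C), φ.ker, Subgroup.finiteIndex_iInf fun φ => Subgroup.finiteIndex_ker φ,
    fun H h0 hC => ?_⟩
  haveI : Fintype (A ⧸ H) := Subgroup.fintypeOfIndexNeZero h0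
  have hcard : Fintype.card (A ⧸ H) ≤ Fintype.card (Fin C) := by
    rw [Fintype.card_fin, ← Nat.card_eq_fintype_card]
    exact hC
  obtain ⟨e⟩ := Function.Embedding.nonempty_of_card_le hcard
  have h1 : (⨅ φ : A →* Equiv.Perm (Fin C), φ.ker) ≤ H.normalCore := by
    rw [Subgroup.normalCore_eq_ker]
    refine (iInf_le _ ((Equiv.Perm.viaEmbeddingHom e).comp (MulAction.toPermHom A (A ⧸ H)))).trans ?_
    intro n hn
    rw [MonoidHom.mem_ker, MonoidHom.comp_apply] at hn
    rw [MonoidHom.mem_ker]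
    exact Equiv.Perm.viaEmbeddingHom_injective e (hn.trans (map_one _).symm)
  exact h1.trans (Subgroup.normalCore_le H)

/-- (VNA) -/
theorem t_VNA : S_VNA := by
  intro G _ N t hN ht C hC
  have hfg : Group.FG N := (Group.fg_iff_subgroup_fg N).2 hN
  obtain ⟨P, hP, hPH⟩ := common N hfg C
  have hne : ∀ k : ℤ, (cc (t ^ k) N).relIndex N ≠ 0 := by
    intro k
    have h1 : t ^ k ∈ Subgroup.Commensurable.commensurator N := Subgroup.zpow_mem _ ht k
    exact ((Subgroup.Commensurable.commensurator_mem_iff N (t ^ k)).1 h1).1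
  have hm : ∀ y : G, y ∈ (⨅ k : ℤ, cc (t ^ k) N) ↔ ∀ k : ℤ, (t ^ k)⁻¹ * y * t ^ k ∈ N := by
    intro y
    rw [Subgroup.mem_iInf]
    exact forall_congr' fun k => mem_cc
  refine ⟨⨅ k : ℤ, cc (t ^ k) N, fun y hy => ?_, ?_, ?_⟩
  · have := (hm y).1 hy 0
    simpa using this
  · have h1 : P ≤ (⨅ k : ℤ, cc (t ^ k) N).subgroupOf N := by
      intro n hn
      rw [Subgroup.mem_subgroupOf, Subgroup.mem_iInf]
      intro k
      have h2 := hPH ((cc (t ^ k) N).subgroupOf N) (hne k) (hC k) hn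
      rwa [Subgroup.mem_subgroupOf] at h2
    haveI := hP
    exact (Subgroup.finiteIndex_of_le h1).index_ne_zero
  · ext y
    rw [mem_cc, hm, hm]
    constructor
    · intro h k
      have h1 := h (k - 1)
      have e : (t ^ (k - 1))⁻¹ * (t⁻¹ * y * t) * t ^ (k - 1) = (t ^ k)⁻¹ * y * t ^ k := by
        rw [show t ^ k = t * t ^ (k - 1) by rw [← zpow_one_add]; congr 1; ring]
        group
      rwa [e] at h1
    · intro h k
      have h1 := h (k + 1)
      have e : (t ^ (k + 1))⁻¹ * y * t ^ (k + 1) = (t ^ k)⁻¹ * (t⁻¹ * y * t) * t ^ k := by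
        rw [show t ^ (k + 1) = t * t ^ k by rw [← zpow_one_add]; congr 1; ring]
        group
      rwa [e] at h1

end Pool.Agent.J4H82.CY
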